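import Pool.Agent.Lib_helper55.ABEntropyBridge

/-!
# Monotonicity in `a` of the entropy of (a,b)-continued fraction maps (MP_c34b65_an)

The definitions are in `Pool.Agent.Lib_helper55.ABEntropyDefs`, the proof in
`Pool.Agent.Lib_helper55.ABEntropyProof` and `Pool.Agent.Lib_helper55.ABEntropyBridge`.

Idea: let `0 ≤ b ≤ 1/2` and `a ≤ a' ≤ b - 1`. The orbits of a point `x` under `f_{a,b}` and
`f_{a',b}` can be coupled: as long as the first orbit does not meet `0`, for every `i` there is
`k ≤ i + 1` such that `f_{a',b}^k(x)` is one of `X`, `-1/X`, `-1/(X+1)`, `X/(1-X)` for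
`X = f_{a,b}^i(x)`. Hence the preimages of the cut points under `f_{a,b}` are among the preimages
of at most 12 points under `f_{a',b}`, of at most the same order plus one, and
`ℓ_n(a,b) ≤ 25 (n+1) ℓ_n(a',b)`.
-/

open Filter Topology

namespace Pool.Agent.Results.MP_c34b65_an.MonotoneInA

open Pool.Agent.Lib_helper55.ABEntropy

/-- **For every `0 ≤ b ≤ 1/2` the topological entropy `a ↦ h_top(f_{a,b})` is monotone
non-decreasing.** (First part: the limit defining the entropy exists.) -/
theorem result :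
    (∀ a b : ℝ, (a, b) ∈ P →
      Tendsto (fun n : ℕ => 1 / (n : ℝ) * Real.log (laps a b n)) atTop (𝓝 (htop a b))) ∧
    ∀ b : ℝ, 0 ≤ b → b ≤ 1 / 2 → ∀ a a' : ℝ, (a, b) ∈ P → (a', b) ∈ P → a ≤ a' →
      htop a b ≤ htop a' b := by
  refine ⟨fun a b _ => tendsto_entropy a b, ?_⟩
  rintro b hb0 hb1 a a' ⟨-, -, -, h1⟩ ⟨-, -, h2, -⟩ haa'
  simp only at h1 h2
  exact htop_le hb0 hb1 haa' (by linarith) (by linarith)

end Pool.Agent.Results.MP_c34b65_an.MonotoneInA
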